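import Pool.Agent.H74.LiePowGrp

namespace Pool.Agent.Results.MP_a1df92_al.Neither

open Pool.Agent.H74.LiePow

attribute [local instance 100] LieRing.ofAssociativeRing

abbrev T (F : Type*) [Field F] := TensorAlgebra F (F × F)

variable (F : Type*) [Field F]

def X : T F := TensorAlgebra.ι F (1, 0)
def Y : T F := TensorAlgebra.ι F (0, 1)
def z : T F := ⁅X F, Y F⁆
def zX : T F := ⁅z F, X F⁆
def zY : T F := ⁅z F, Y F⁆
def m1 : T F := ⁅zX F, X F⁆
def m2 : T F := ⁅zX F, Y F⁆
def m3 : T F := ⁅zY F, Y F⁆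
def a : T F := ⁅m1 F, X F⁆
def b : T F := ⁅m1 F, Y F⁆
def c : T F := ⁅m3 F, X F⁆
def d : T F := ⁅m3 F, Y F⁆

variable {F}

lemma lsm (u v : T F) (r : F) : ⁅u, r • v⁆ = r • ⁅u, v⁆ := by
  simp only [Ring.lie_def, mul_smul_comm, smul_mul_assoc, smul_sub]

lemma iota_eq (v : F × F) : TensorAlgebra.ι F v = v.1 • X F + v.2 • Y F := by
  rw [X, Y, ← map_smul, ← map_smul, ← map_add]
  congr 1
  ext <;> simp

lemma zYX : ⁅zY F, X F⁆ = m2 F := by
  have h := lie_lie (X F) (Y F) (z F)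
  have h0 : ⁅⁅X F, Y F⁆, z F⁆ = 0 := lie_self (z F)
  rw [h0, ← lie_skew (Y F) (z F), ← lie_skew (X F) (z F), lie_neg, lie_neg, lie_skew, lie_skew] at h
  exact sub_eq_zero.1 h.symm

lemma YX : ⁅Y F, X F⁆ = -z F := by rw [z, lie_skew]

lemma act_lie (g : G F) (u v : T F) : act g ⁅u, v⁆ = ⁅act g u, act g v⁆ := by
  simp only [Ring.lie_def, map_sub, map_mul]

lemma act_iota (g : G F) (v : F × F) : act g (TensorAlgebra.ι F v) = TensorAlgebra.ι F (g v) := by
  simp [act]

lemma act_mul (g h : G F) (u : T F) : act (g * h) u = act g (act h u) := by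
  have : act (g * h) = (act g).comp (act h) := by
    apply TensorAlgebra.hom_ext
    ext1 <;> ext <;> simp [act]
  rw [this]; rfl

lemma act_one (u : T F) : act (1 : G F) u = u := by
  have : act (1 : G F) = AlgHom.id F _ := by
    apply TensorAlgebra.hom_ext
    ext1 <;> ext <;> simp [act]
  rw [this]; rfl

section formulas
variable (p q r s : F) (h : p * s - q * r ≠ 0)

lemma act_X : act (mkG p q r s h) (X F) = p • X F + r • Y F := by
  rw [X, act_iota, iota_eq]; simp [X]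

lemma act_Y : act (mkG p q r s h) (Y F) = q • X F + s • Y F := by
  rw [Y, act_iota, iota_eq]; simp [Y]

lemma act_z : act (mkG p q r s h) (z F) = (p * s - q * r) • z F := by
  rw [z, act_lie, act_X, act_Y]
  simp only [lie_add, add_lie, lsm, smul_lie, lie_self, YX, ← z.eq_1]
  module

lemma act_zX : act (mkG p q r s h) (zX F) =
    ((p * s - q * r) * p) • zX F + ((p * s - q * r) * r) • zY F := by
  rw [zX, act_lie, act_z, act_X]
  simp only [lie_add, lsm, smul_lie, ← zX.eq_1, ← zY.eq_1]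
  module

lemma act_zY : act (mkG p q r s h) (zY F) =
    ((p * s - q * r) * q) • zX F + ((p * s - q * r) * s) • zY F := by
  rw [zY, act_lie, act_z, act_Y]
  simp only [lie_add, lsm, smul_lie, ← zX.eq_1, ← zY.eq_1]
  module

variable [CharP F 2]

lemma h2F : (2 : F) = 0 := by exact_mod_cast CharP.cast_eq_zero F 2

lemma two_smul_zero (u : T F) : (2 : F) • u = 0 := by rw [h2F, zero_smul]

lemma act_m1 : act (mkG p q r s h) (m1 F) =
    ((p * s - q * r) * p ^ 2) • m1 F + ((p * s - q * r) * r ^ 2) • m3 F := by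
  rw [m1, act_lie, act_zX, act_X]
  simp only [lie_add, add_lie, lsm, smul_lie, zYX, ← m1.eq_1, ← m2.eq_1, ← m3.eq_1]
  linear_combination (norm := module) ((p * s - q * r) * p * r) • two_smul_zero (m2 F)

lemma act_m3 : act (mkG p q r s h) (m3 F) =
    ((p * s - q * r) * q ^ 2) • m1 F + ((p * s - q * r) * s ^ 2) • m3 F := by
  rw [m3, act_lie, act_zY, act_Y]
  simp only [lie_add, add_lie, lsm, smul_lie, zYX, ← m1.eq_1, ← m2.eq_1, ← m3.eq_1]
  linear_combination (norm := module) ((p * s - q * r) * q * s) • two_smul_zero (m2 F)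

lemma act_comb (x1 x2 x3 x4 : F) :
    act (mkG p q r s h) (x1 • a F + x2 • b F + x3 • c F + x4 • d F) =
    ((p * s - q * r) * (x1 * p ^ 2 * p + x2 * p ^ 2 * q + x3 * q ^ 2 * p + x4 * q ^ 2 * q)) • a F +
    ((p * s - q * r) * (x1 * p ^ 2 * r + x2 * p ^ 2 * s + x3 * q ^ 2 * r + x4 * q ^ 2 * s)) • b F +
    ((p * s - q * r) * (x1 * r ^ 2 * p + x2 * r ^ 2 * q + x3 * s ^ 2 * p + x4 * s ^ 2 * q)) • c F +
    ((p * s - q * r) * (x1 * r ^ 2 * r + x2 * r ^ 2 * s + x3 * s ^ 2 * r + x4 * s ^ 2 * s)) •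
      d F := by
  simp only [map_add, map_smul]
  rw [a, b, c, d]
  simp only [act_lie, act_m1, act_m3, act_X, act_Y]
  simp only [lie_add, add_lie, lsm, smul_lie, ← a.eq_1, ← b.eq_1, ← c.eq_1, ← d.eq_1]
  module

end formulas

lemma lb_cons (v w : F × F) (l : List (F × F)) : lb F v (l ++ [w]) =
    ⁅lb F v l, w.1 • X F + w.2 • Y F⁆ := by
  rw [lb, List.foldl_append, ← iota_eq]; rfl

lemma lb_nil (v : F × F) : lb F v [] = v.1 • X F + v.2 • Y F := iota_eq v

lemma liePow_succ {k : ℕ} {A B : Submodule F (T F)} (hA : liePow F (F × F) (k + 1) ≤ A)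
    (h : ∀ u ∈ A, ⁅u, X F⁆ ∈ B ∧ ⁅u, Y F⁆ ∈ B) : liePow F (F × F) (k + 2) ≤ B := by
  rw [liePow, Submodule.span_le]
  rintro _ ⟨v, l, hl, rfl⟩
  rcases List.eq_nil_or_concat l with rfl | ⟨l', w, rfl⟩
  · simp at hl
  · rw [List.concat_eq_append] at hl ⊢
    have h1 : lb F v l' ∈ A := hA (Submodule.subset_span ⟨v, l', by simpa using hl, rfl⟩)
    rw [lb_cons, lie_add, lsm, lsm]
    exact B.add_mem (B.smul_mem _ (h _ h1).1) (B.smul_mem _ (h _ h1).2)

lemma L1_le : liePow F (F × F) 1 ≤ Submodule.span F {X F, Y F} := by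
  rw [liePow, Submodule.span_le]
  rintro _ ⟨v, l, hl, rfl⟩
  have : l = [] := by simpa using hl
  subst this
  rw [lb_nil]
  exact Submodule.mem_span_pair.2 ⟨_, _, rfl⟩

lemma L2_le : liePow F (F × F) 2 ≤ Submodule.span F {z F} := by
  refine liePow_succ L1_le fun u hu => ?_
  obtain ⟨p, q, rfl⟩ := Submodule.mem_span_pair.1 hu
  simp only [add_lie, smul_lie, lie_self, YX, ← z.eq_1, Submodule.mem_span_singleton]
  exact ⟨⟨-q, by module⟩, ⟨p, by module⟩⟩

lemma L3_le : liePow F (F × F) 3 ≤ Submodule.span F {zX F, zY F} := by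
  refine liePow_succ L2_le fun u hu => ?_
  obtain ⟨p, rfl⟩ := Submodule.mem_span_singleton.1 hu
  simp only [smul_lie, ← zX.eq_1, ← zY.eq_1, Submodule.mem_span_pair]
  exact ⟨⟨p, 0, by module⟩, ⟨0, p, by module⟩⟩

lemma L4_le : liePow F (F × F) 4 ≤ Submodule.span F {m1 F, m3 F, m2 F} := by
  refine liePow_succ L3_le fun u hu => ?_
  obtain ⟨p, q, rfl⟩ := Submodule.mem_span_pair.1 hu
  simp only [add_lie, smul_lie, zYX, ← m1.eq_1, ← m2.eq_1, ← m3.eq_1, Submodule.mem_span_triple]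
  exact ⟨⟨p, 0, q, by module⟩, ⟨0, q, p, by module⟩⟩

lemma comb_mem (x1 x2 x3 x4 : F) :
    x1 • a F + x2 • b F + x3 • c F + x4 • d F ∈ liePow F (F × F) 5 := by
  have h : ∀ v1 v2 v3 v4 v5 : F × F, lb F v1 [v2, v3, v4, v5] ∈ liePow F (F × F) 5 :=
    fun v1 v2 v3 v4 v5 => Submodule.subset_span ⟨v1, [v2, v3, v4, v5], rfl, rfl⟩
  refine Submodule.add_mem _ (Submodule.add_mem _ (Submodule.add_mem _ ?_ ?_) ?_) ?_ <;>
    apply Submodule.smul_mem
  · exact h (1, 0) (0, 1) (1, 0) (1, 0) (1, 0)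
  · exact h (1, 0) (0, 1) (1, 0) (1, 0) (0, 1)
  · exact h (1, 0) (0, 1) (0, 1) (0, 1) (1, 0)
  · exact h (1, 0) (0, 1) (0, 1) (0, 1) (0, 1)

/-- a representation that detects the word `YXXXX` -/
def psi : T F →ₐ[F] Matrix (Fin 2) (Fin 2) F :=
  TensorAlgebra.lift F
    { toFun := fun v => !![0, v.2; 0, v.1]
      map_add' := fun u v => by ext i j; fin_cases i <;> fin_cases j <;> simp
      map_smul' := fun r v => by ext i j; fin_cases i <;> fin_cases j <;> simp }

lemma psi_comb (x1 x2 x3 x4 : F) :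
    psi (x1 • a F + x2 • b F + x3 • c F + x4 • d F) 0 1 = -x1 := by
  have hX : psi (X F) = !![0, 0; 0, 1] := by simp [psi, X]
  have hY : psi (Y F) = !![0, 1; 0, 0] := by simp [psi, Y]
  simp only [a, b, c, d, m1, m3, zX, zY, z, Ring.lie_def, map_add, map_smul, map_sub, map_mul,
    hX, hY]
  simp

lemma two_dim {U : Submodule F (T F)} {u v : T F} {g w : G F} {l m e e' : F} (hlm : l ≠ m)
    (he : e ≠ 0) (he' : e' ≠ 0) (hgu : act g u = l • u) (hgv : act g v = m • v)
    (hwu : act w u = e • v) (hwv : act w v = e' • u) (hg : ∀ x ∈ U, act g x ∈ U)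
    (hw : ∀ x ∈ U, act w x ∈ U) (hU : U ≤ Submodule.span F {u, v}) (h0 : U ≠ ⊥) :
    Submodule.span F {u, v} ≤ U := by
  obtain ⟨x, hx, hx0⟩ := Submodule.exists_mem_ne_zero_of_ne_bot h0
  obtain ⟨p, q, rfl⟩ := Submodule.mem_span_pair.1 (hU hx)
  have h1 := hg _ hx
  rw [map_add, map_smul, map_smul, hgu, hgv] at h1
  have h2 : ((l - m) * p) • u ∈ U := by
    have := U.sub_mem h1 (U.smul_mem m hx)
    convert this using 1
    module
  have h3 : ((m - l) * q) • v ∈ U := by
    have := U.sub_mem h1 (U.smul_mem l hx)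
    convert this using 1
    module
  have h4 : u ∈ U → v ∈ U := fun h => by
    have := hw _ h
    rwa [hwu, U.smul_mem_iff he] at this
  have h5 : v ∈ U → u ∈ U := fun h => by
    have := hw _ h
    rwa [hwv, U.smul_mem_iff he'] at this
  have h6 : u ∈ U := by
    by_cases hp : p = 0
    · have hq : q ≠ 0 := by rintro rfl; apply hx0; simp [hp]
      exact h5 ((U.smul_mem_iff (mul_ne_zero (sub_ne_zero.2 hlm.symm) hq)).1 h3)
    · exact (U.smul_mem_iff (mul_ne_zero (sub_ne_zero.2 hlm) hp)).1 h2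
  rw [Submodule.span_le]
  rintro y (rfl | rfl)
  · exact h6
  · exact h4 h6

lemma inv_mono {H : Subgroup (G F)} {W : Submodule F (T F)} (h : Inv ⊤ W) : Inv H W :=
  fun g _ x hx => h g (Subgroup.mem_top _) x hx

variable [CharP F 2]

lemma star5 {ω : F} (hω0 : ω ≠ 0) (hω : ω ^ 2 ≠ 1) : Star (Hm F) 5 := by
  have hω1 : ω ≠ 1 := by rintro rfl; simp at hω
  intro k hk1 hk5 W hW hI
  refine ⟨inv_mono hI.1, hI.2.1, fun U hUW hU => ?_⟩
  by_cases h0 : U = ⊥
  · exact Or.inl h0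
  right
  refine le_antisymm hUW ?_
  have hg := hU _ (dg_mem ω 1 hω0 one_ne_zero)
  have hw := hU _ sw_mem
  have hk : k = 1 ∨ k = 2 ∨ k = 3 ∨ k = 4 := by omega
  rcases hk with rfl | rfl | rfl | rfl
  · refine (hW.trans L1_le).trans (two_dim (l := ω) (m := 1) (e := 1) (e' := 1) hω1 one_ne_zero
      one_ne_zero ?_ ?_ ?_ ?_ hg hw (hUW.trans (hW.trans L1_le)) h0)
    · rw [dg, act_X]; simp
    · rw [dg, act_Y]; simp
    · rw [sw, act_X]; simp
    · rw [sw, act_Y]; simp
  · obtain ⟨x, hx, hx0⟩ := Submodule.exists_mem_ne_zero_of_ne_bot h0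
    obtain ⟨p, rfl⟩ := Submodule.mem_span_singleton.1 (L2_le (hW (hUW hx)))
    have hp : p ≠ 0 := by rintro rfl; simp at hx0
    refine (hW.trans L2_le).trans ?_
    rw [Submodule.span_singleton_le_iff_mem]
    exact (U.smul_mem_iff hp).1 hx
  · refine (hW.trans L3_le).trans (two_dim (l := ω * ω) (m := ω) (e := -1) (e' := -1)
      (fun h => hω1 (mul_left_cancel₀ hω0 (h.trans (mul_one ω).symm))) (by simp)
      (by simp) ?_ ?_ ?_ ?_ hg hw (hUW.trans (hW.trans L3_le)) h0)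
    · rw [dg, act_zX]; simp
    · rw [dg, act_zY]; simp
    · rw [sw, act_zX]; simp
    · rw [sw, act_zY]; simp
  · have hA : Inv ⊤ (W ⊓ Submodule.span F {m1 F, m3 F}) := by
      intro g hg x hx
      refine ⟨hI.1 g hg x hx.1, ?_⟩
      obtain ⟨p, q, r, s, h, rfl⟩ := exists_mkG g
      obtain ⟨u, v, rfl⟩ := Submodule.mem_span_pair.1 hx.2
      rw [map_add, map_smul, map_smul, act_m1, act_m3]
      exact Submodule.mem_span_pair.2 ⟨u * ((p * s - q * r) * p ^ 2) + v * ((p * s - q * r) * q ^ 2),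
        u * ((p * s - q * r) * r ^ 2) + v * ((p * s - q * r) * s ^ 2), by module⟩
    rcases hI.2.2 _ inf_le_left hA with h | h
    · obtain ⟨x, hx, hx0⟩ := Submodule.exists_mem_ne_zero_of_ne_bot h0
      obtain ⟨p, q, r, hx'⟩ := Submodule.mem_span_triple.1 (L4_le (hW (hUW hx)))
      have hr : r ≠ 0 := by
        rintro rfl
        apply hx0
        rw [← Submodule.mem_bot F, ← h]
        exact ⟨hUW hx, Submodule.mem_span_pair.2 ⟨p, q, by rw [← hx']; simp⟩⟩
      intro y hy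
      obtain ⟨p', q', r', hy'⟩ := Submodule.mem_span_triple.1 (L4_le (hW hy))
      have : r • y - r' • x = 0 := by
        rw [← Submodule.mem_bot F, ← h]
        refine ⟨W.sub_mem (W.smul_mem _ hy) (W.smul_mem _ (hUW hx)),
          Submodule.mem_span_pair.2 ⟨r * p' - r' * p, r * q' - r' * q, ?_⟩⟩
        rw [← hx', ← hy']; module
      rw [← U.smul_mem_iff hr, sub_eq_zero.1 this]
      exact U.smul_mem _ hx
    · have hWA : W ≤ Submodule.span F {m1 F, m3 F} := h ▸ inf_le_right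
      refine hWA.trans (two_dim (l := ω * ω ^ 2) (m := ω) (e := -1) (e' := -1)
        (fun h => hω (mul_left_cancel₀ hω0 (h.trans (mul_one ω).symm))) (by simp)
        (by simp) ?_ ?_ ?_ ?_ hg hw (hUW.trans hWA) h0)
      · rw [dg, act_m1]; simp
      · rw [dg, act_m3]; simp
      · rw [sw, act_m1]; simp
      · rw [sw, act_m3]; simp

variable (F) in
def cb (x1 x2 x3 x4 : F) : T F := x1 • a F + x2 • b F + x3 • c F + x4 • d F

variable (F) in
def C : Submodule F (T F) where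
  carrier := {x | ∃ x1 x2 x3 x4, x = cb F x1 x2 x3 x4}
  add_mem' := by
    rintro _ _ ⟨x1, x2, x3, x4, rfl⟩ ⟨y1, y2, y3, y4, rfl⟩
    exact ⟨x1 + y1, x2 + y2, x3 + y3, x4 + y4, by simp only [cb]; module⟩
  zero_mem' := ⟨0, 0, 0, 0, by simp [cb]⟩
  smul_mem' := by
    rintro r _ ⟨x1, x2, x3, x4, rfl⟩
    exact ⟨r * x1, r * x2, r * x3, r * x4, by simp only [cb]; module⟩

omit [CharP F 2] in
lemma cb_eq {x1 x2 x3 x4 y1 y2 y3 y4 : F} (h : cb F x1 x2 x3 x4 = cb F y1 y2 y3 y4) : x1 = y1 := by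
  have := congrArg (fun u => psi u 0 1) h
  simpa only [cb, psi_comb, neg_inj] using this

lemma up_cb (l x1 x2 x3 x4 : F) : act (up l) (cb F x1 x2 x3 x4) - cb F x1 x2 x3 x4 =
    cb F (x2 * l + x3 * l ^ 2 + x4 * l ^ 3) (x4 * l ^ 2) (x4 * l) 0 := by
  rw [up, cb, act_comb, cb]; module

lemma lo_cb (l : F) : act (lo l) (cb F 1 0 0 0) - cb F 1 0 0 0 = cb F 0 l (l ^ 2) (l ^ 3) := by
  rw [lo, cb, act_comb, cb]; module

lemma C_irr {ω : F} (hω : ω ^ 2 + ω + 1 = 0) : Irr ⊤ (C F) := by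
  have h2 : (2 : F) = 0 := h2F
  have hω0 : ω ≠ 0 := by rintro rfl; simp at hω
  have hω1 : ω + 1 ≠ 0 := by
    intro h; apply hω0; apply pow_eq_zero_iff (n := 2) (by norm_num) |>.1; linear_combination hω - h
  refine ⟨?_, ?_, fun U hUC hU => ?_⟩
  · rintro g - _ ⟨x1, x2, x3, x4, rfl⟩
    obtain ⟨p, q, r, s, h, rfl⟩ := exists_mkG g
    exact ⟨_, _, _, _, act_comb p q r s h x1 x2 x3 x4⟩
  · intro h
    have : cb F 1 0 0 0 ∈ C F := ⟨_, _, _, _, rfl⟩
    rw [h, Submodule.mem_bot] at this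
    have h1 : cb F 1 0 0 0 = cb F 0 0 0 0 := by rw [this]; simp [cb]
    exact one_ne_zero (cb_eq h1)
  by_cases h0 : U = ⊥
  · exact Or.inl h0
  right
  refine le_antisymm hUC ?_
  have hup : ∀ l x1 x2 x3 x4, cb F x1 x2 x3 x4 ∈ U →
      cb F (x2 * l + x3 * l ^ 2 + x4 * l ^ 3) (x4 * l ^ 2) (x4 * l) 0 ∈ U := by
    intro l x1 x2 x3 x4 h
    rw [← up_cb l x1]
    exact U.sub_mem (hU _ (Subgroup.mem_top _) _ h) h
  have hsc : ∀ x : F, x ≠ 0 → cb F x 0 0 0 ∈ U → cb F 1 0 0 0 ∈ U := by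
    intro x hx h
    rw [← U.smul_mem_iff hx]
    convert h using 1
    simp only [cb]; module
  have h3 : ∀ x1 x2 x3, (x2 ≠ 0 ∨ x3 ≠ 0) → cb F x1 x2 x3 0 ∈ U → cb F 1 0 0 0 ∈ U := by
    intro x1 x2 x3 hne h
    have k1 := hup 1 _ _ _ _ h
    have k2 := hup ω _ _ _ _ h
    simp only [zero_mul, add_zero] at k1 k2
    by_cases e1 : x2 * 1 + x3 * 1 ^ 2 = 0
    · refine hsc _ (fun e2 => ?_) k2
      have e3 : x3 = 0 := by linear_combination e2 - ω * e1 - x3 * hω + (x3 * ω + x3) * h2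
      have e4 : x2 = 0 := by linear_combination e1 - e3
      tauto
    · exact hsc _ e1 k1
  have ha : cb F 1 0 0 0 ∈ U := by
    obtain ⟨x, hx, hx0⟩ := Submodule.exists_mem_ne_zero_of_ne_bot h0
    obtain ⟨x1, x2, x3, x4, rfl⟩ := hUC hx
    by_cases e4 : x4 = 0
    · subst e4
      by_cases e : x2 ≠ 0 ∨ x3 ≠ 0
      · exact h3 _ _ _ e hx
      · push Not at e
        obtain ⟨rfl, rfl⟩ := e
        exact hsc _ (by rintro rfl; apply hx0; simp [cb]) hx
    · exact h3 _ _ _ (Or.inr (by simpa using e4)) (hup 1 _ _ _ _ hx)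
  have hlo : ∀ l, cb F 0 l (l ^ 2) (l ^ 3) ∈ U := fun l => by
    rw [← lo_cb]
    exact U.sub_mem (hU _ (Subgroup.mem_top _) _ ha) ha
  rintro _ ⟨x1, x2, x3, x4, rfl⟩
  have k := U.add_mem (U.add_mem (U.add_mem (U.smul_mem x1 ha)
    (U.smul_mem (x2 + x3 + x4) (hlo 1)))
    (U.smul_mem (x2 * (ω + 1) + x3 * ω + x4) (hlo ω)))
    (U.smul_mem (x2 * ω + x3 * (ω + 1) + x4) (hlo (ω + 1)))
  convert k using 1
  simp only [cb]
  match_scalars
  · ring
  · grind
  · grind
  · grind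

variable (F) in
def U1 : Submodule F (T F) := Submodule.span F {cb F 1 0 0 1}

variable (F) in
def U2 : Submodule F (T F) := Submodule.span F {cb F 0 1 0 0, cb F 0 0 1 0}

lemma dg_cb (p q : F) (hp : p ≠ 0) (hq : q ≠ 0) (x1 x2 x3 x4 : F) :
    act (dg p q hp hq) (cb F x1 x2 x3 x4) = cb F (p * q * p ^ 3 * x1) (p * q * p ^ 2 * q * x2)
      (p * q * q ^ 2 * p * x3) (p * q * q ^ 3 * x4) := by
  rw [dg, cb, act_comb, cb]; module

lemma sw_cb (x1 x2 x3 x4 : F) :
    act (sw F) (cb F x1 x2 x3 x4) = -cb F x4 x3 x2 x1 := by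
  rw [sw, cb, act_comb, cb]; module

omit [CharP F 2] in
lemma inv_of {U : Submodule F (T F)} (h1 : ∀ p q hp hq, ∀ x ∈ U, act (dg p q hp hq) x ∈ U)
    (h2 : ∀ x ∈ U, act (sw F) x ∈ U) : Inv (Hm F) U := by
  intro h hh x hx
  obtain ⟨p, q, hp, hq, rfl | rfl⟩ := mem_cases hh
  · exact h1 _ _ _ _ _ hx
  · rw [act_mul]; exact h1 _ _ _ _ _ (h2 _ hx)

lemma U1_inv (h3 : ∀ x : F, x ≠ 0 → x ^ 3 = 1) : Inv (Hm F) (U1 F) := by
  refine inv_of (fun p q hp hq x hx => ?_) (fun x hx => ?_)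
  · obtain ⟨r, rfl⟩ := Submodule.mem_span_singleton.1 hx
    rw [map_smul, dg_cb, h3 p hp, h3 q hq]
    exact Submodule.mem_span_singleton.2 ⟨r * (p * q), by simp only [cb]; module⟩
  · obtain ⟨r, rfl⟩ := Submodule.mem_span_singleton.1 hx
    rw [map_smul, sw_cb]
    exact Submodule.mem_span_singleton.2 ⟨-r, by simp only [cb]; module⟩

lemma U2_inv : Inv (Hm F) (U2 F) := by
  refine inv_of (fun p q hp hq x hx => ?_) (fun x hx => ?_)
  · obtain ⟨r, s, rfl⟩ := Submodule.mem_span_pair.1 hx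
    rw [map_add, map_smul, map_smul, dg_cb, dg_cb]
    exact Submodule.mem_span_pair.2 ⟨r * (p * q * p ^ 2 * q), s * (p * q * q ^ 2 * p),
      by simp only [cb]; module⟩
  · obtain ⟨r, s, rfl⟩ := Submodule.mem_span_pair.1 hx
    rw [map_add, map_smul, map_smul, sw_cb, sw_cb]
    exact Submodule.mem_span_pair.2 ⟨-s, -r, by simp only [cb]; module⟩

lemma b_not_mem : cb F 0 1 0 0 ∉ U1 F := by
  intro h
  obtain ⟨r, hr⟩ := Submodule.mem_span_singleton.1 h
  have h1 : cb F r 0 0 r = cb F 0 1 0 0 := by rw [← hr]; simp only [cb]; module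
  have h2 := cb_eq h1
  subst h2
  have h3 := up_cb (1 : F) 0 1 0 0
  rw [← h1] at h3
  have h4 : cb F 0 0 0 0 = 0 := by simp [cb]
  rw [h4, map_zero, sub_zero, ← h4] at h3
  simpa using cb_eq h3

omit [CharP F 2] in
lemma ad_ne : cb F 1 0 0 1 ≠ 0 := by
  intro h
  have h4 : cb F 0 0 0 0 = 0 := by simp [cb]
  exact one_ne_zero (cb_eq (h.trans h4.symm))

lemma not_star6 {ω : F} (hω : ω ^ 2 + ω + 1 = 0) (h3 : ∀ x : F, x ≠ 0 → x ^ 3 = 1) :
    ¬ Star (Hm F) 6 := by
  intro h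
  have h1 := h 5 (by norm_num) (by norm_num) (C F)
    (by rintro _ ⟨x1, x2, x3, x4, rfl⟩; exact comb_mem x1 x2 x3 x4) (C_irr hω)
  rcases h1.2.2 (U1 F) (by
    rw [U1, Submodule.span_singleton_le_iff_mem]; exact ⟨_, _, _, _, rfl⟩) (U1_inv h3) with h | h
  · exact ad_ne (Submodule.span_singleton_eq_bot.1 h)
  · exact b_not_mem (F := F) (by rw [h]; exact ⟨_, _, _, _, rfl⟩)

lemma not_uniserial (h3 : ∀ x : F, x ≠ 0 → x ^ 3 = 1) :
    ¬ Uniserial (Hm F) (liePow F (F × F) 5) := by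
  intro h
  rcases h (U1 F) (by rw [U1, Submodule.span_singleton_le_iff_mem]; exact comb_mem _ _ _ _)
    (U2 F) (by
      rw [U2, Submodule.span_le]
      rintro _ (rfl | rfl) <;> exact comb_mem _ _ _ _) (U1_inv h3) U2_inv with h | h
  · obtain ⟨r, s, hr⟩ := Submodule.mem_span_pair.1 (h (Submodule.mem_span_singleton_self _))
    have h1 : cb F 0 r s 0 = cb F 1 0 0 1 := by rw [← hr]; simp only [cb]; module
    exact zero_ne_one (cb_eq h1)
  · exact b_not_mem (h (Submodule.subset_span (by simp)))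

lemma not_compRed {ω : F} (hω : ω ^ 2 + ω + 1 = 0) (h3 : ∀ x : F, x ≠ 0 → x ^ 3 = 1) :
    ¬ CompRed (Hm F) (liePow F (F × F) 5) := by
  intro h
  have h2 : (2 : F) = 0 := h2F
  have hω0 : ω ≠ 0 := by rintro rfl; simp at hω
  have hω3 := h3 ω hω0
  let s : G F := dg ω (ω ^ 2) hω0 (pow_ne_zero _ hω0)
  have hs : s ∈ Hm F := dg_mem _ _ _ _
  let P : T F →ₗ[F] T F := LinearMap.id + (act s).toLinearMap + (act (s * s)).toLinearMap
  have hP : ∀ u, P u = u + act s u + act (s * s) u := fun u => rfl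
  have hs3 : s * (s * s) = 1 := G_ext fun v => by
    simp only [mul_app, s, dg, mkG_apply]
    ext
    · simp only [LinearEquiv.coe_one, id]; linear_combination v.1 * hω3
    · simp only [LinearEquiv.coe_one, id]; linear_combination v.2 * (ω ^ 3 + 1) * hω3
  have hsP : ∀ u, act s (P u) = P u := fun u => by
    rw [hP, map_add, map_add, ← act_mul, ← act_mul, hs3, act_one]; abel
  have hww : sw F * sw F = 1 := G_ext fun v => by simp [sw]
  have hws : sw F * s = s * s * sw F := G_ext fun v => by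
    simp only [mul_app, s, dg, sw, mkG_apply]
    ext
    · simp only; ring
    · simp only; linear_combination (-(v.1 * ω)) * hω3
  have hwss : sw F * (s * s) = s * sw F := G_ext fun v => by
    simp only [mul_app, s, dg, sw, mkG_apply]
    ext
    · simp only; linear_combination (v.2 * ω) * hω3
    · simp only; ring
  have hwP : ∀ u, act (sw F) (P u) = P (act (sw F) u) := fun u => by
    rw [hP, hP, map_add, map_add, ← act_mul, ← act_mul, ← act_mul, ← act_mul, hws, hwss]; abel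
  have hts : ∀ p q hp hq, dg p q hp hq * s = s * dg p q hp hq := fun p q hp hq =>
    G_ext fun v => by
      simp only [mul_app, s, dg, mkG_apply]
      ext <;> simp only <;> ring
  have htP : ∀ p q hp hq u, act (dg p q hp hq) (P u) = P (act (dg p q hp hq) u) := by
    intro p q hp hq u
    rw [hP, hP, map_add, map_add, ← act_mul, ← act_mul, ← act_mul, ← act_mul, ← mul_assoc, hts,
      mul_assoc s, hts, mul_assoc]
  have htw : ∀ p q hp hq u, act (dg p q hp hq) (act (sw F) (P u)) =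
      act (sw F) (act (dg p q hp hq) (P u)) := by
    intro p q hp hq u
    have hr : (q - p) * (q - p * ω) * (q - p * ω ^ 2) = 0 := by
      have e1 := h3 p hp
      have e2 := h3 q hq
      linear_combination e2 - e1 - (p ^ 3) * hω3 + (-(p * q ^ 2) + p ^ 2 * q * ω) * hω
    rcases mul_eq_zero.1 hr with hr | hr
    · rcases mul_eq_zero.1 hr with hr | hr
      · have : dg p q hp hq * sw F = sw F * dg p q hp hq := G_ext fun v => by
          simp only [mul_app, dg, sw, mkG_apply]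
          ext
          · simp only; linear_combination (-v.2) * hr
          · simp only; linear_combination (v.1) * hr
        rw [← act_mul, this, act_mul]
      · have : dg p q hp hq * sw F = sw F * (dg p q hp hq * s) := G_ext fun v => by
          simp only [mul_app, dg, sw, s, mkG_apply]
          ext
          · simp only; linear_combination (-(v.2 * ω ^ 2)) * hr - p * v.2 * hω3
          · simp only; linear_combination (v.1) * hr
        rw [← act_mul, this, act_mul, act_mul, hsP]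
    · have : dg p q hp hq * sw F = sw F * (dg p q hp hq * (s * s)) := G_ext fun v => by
        simp only [mul_app, dg, sw, s, mkG_apply]
        ext
        · simp only
          linear_combination (-(v.2 * ω ^ 4)) * hr - p * v.2 * (ω ^ 3 + 1) * hω3
        · simp only; linear_combination (v.1) * hr
      rw [← act_mul, this, act_mul, act_mul, act_mul, hsP, hsP]
  let N : T F →ₗ[F] T F := P + (act (sw F)).toLinearMap ∘ₗ P
  have hN : ∀ u, N u = P u + act (sw F) (P u) := fun u => rfl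
  have hadd : ∀ u : T F, u + u = 0 := fun u => by rw [← two_smul F u, two_smul_zero]
  have hNw : ∀ u, N (act (sw F) u) = N u := fun u => by
    rw [hN, hN, ← hwP, ← act_mul, hww, act_one, add_comm]
  have hNN : ∀ u, N (N u) = 0 := fun u => by
    conv_lhs => rw [hN u, map_add, hNw]
    exact hadd _
  have hker : Inv (Hm F) (LinearMap.ker N) := by
    refine inv_of (fun p q hp hq x hx => ?_) (fun x hx => ?_)
    · rw [LinearMap.mem_ker] at hx ⊢
      rw [hN, ← htP, ← htw, ← map_add, ← hN, hx, map_zero]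
    · rw [LinearMap.mem_ker] at hx ⊢
      rw [hNw, hx]
  have hle : liePow F (F × F) 5 ≤ LinearMap.ker N := by
    rw [h, sSup_le_iff]
    rintro U ⟨-, hU⟩
    have hPU : ∀ u ∈ U, P u ∈ U := fun u hu =>
      U.add_mem (U.add_mem hu (hU.1 _ hs _ hu)) (hU.1 _ ((Hm F).mul_mem hs hs) _ hu)
    have hNU : ∀ u ∈ U, N u ∈ U := fun u hu =>
      U.add_mem (hPU u hu) (hU.1 _ sw_mem _ (hPU u hu))
    rcases hU.2.2 (U ⊓ LinearMap.ker N) inf_le_left
      (fun g hg x hx => ⟨hU.1 g hg x hx.1, hker g hg x hx.2⟩) with h | h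
    · intro u hu
      rw [LinearMap.mem_ker, ← Submodule.mem_bot F, ← h]
      exact ⟨hNU u hu, hNN u⟩
    · exact h ▸ inf_le_right
  have h1 : N (cb F 1 0 0 0) = 0 := hle (comb_mem 1 0 0 0)
  have h4 : act s (cb F 1 0 0 0) = cb F 1 0 0 0 := by
    simp only [s]
    rw [dg_cb]
    congr 1
    · linear_combination (ω ^ 3 + 1) * hω3
    all_goals ring
  have h5 : P (cb F 1 0 0 0) = cb F 1 0 0 0 := by
    rw [hP, act_mul, h4, h4, hadd, zero_add]
  rw [hN, h5, sw_cb] at h1
  have h6 : cb F 1 0 0 (-1) = cb F 0 0 0 0 := by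
    rw [show cb F 0 0 0 0 = 0 by simp [cb], ← h1]; simp only [cb]; module
  exact one_ne_zero (cb_eq h6)

/-- A finite field `F`, a space `V`, a maximal subgroup `H` of `GL(V)` and the largest `n` with
`(*ₙ)` such that the `n`-th Lie power is neither completely reducible nor uniserial for `H`. -/
theorem result : ∃ (F : Type) (_ : Field F) (_ : Finite F) (V : Type) (_ : AddCommGroup V)
    (_ : Module F V) (_ : FiniteDimensional F V) (H : Subgroup (V ≃ₗ[F] V)) (n : ℕ),
    IsCoatom H ∧ 1 ≤ n ∧ Star H n ∧ ¬ Star H (n + 1) ∧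
      ¬ CompRed H (liePow F V n) ∧ ¬ Uniserial H (liePow F V n) := by
  classical
  have : Fact (Nat.Prime 2) := ⟨Nat.prime_two⟩
  let F := GaloisField 2 2
  let _ : Fintype F := Fintype.ofFinite F
  have hc : Fintype.card F = 4 := by
    rw [← Nat.card_eq_fintype_card, GaloisField.card 2 2 (by norm_num)]; norm_num
  have h3 : ∀ x : F, x ≠ 0 → x ^ 3 = 1 := fun x hx => by
    have := FiniteField.pow_card_sub_one_eq_one x hx
    rwa [hc] at this
  obtain ⟨ω, h0, h1⟩ : ∃ ω : F, ω ≠ 0 ∧ ω ≠ 1 := by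
    by_contra hcon
    push Not at hcon
    have : (Finset.univ : Finset F) ⊆ {0, 1} := by
      intro x _
      by_cases hx : x = 0
      · simp [hx]
      · simp [hcon x hx]
    have h4 := (Finset.card_le_card this).trans Finset.card_le_two
    rw [Finset.card_univ, hc] at h4
    omega
  have hω : ω ^ 2 + ω + 1 = 0 := by
    apply mul_left_cancel₀ (sub_ne_zero.2 h1)
    linear_combination h3 ω h0
  have hω2 : ω ^ 2 ≠ 1 := by
    intro h
    apply h1
    linear_combination h3 ω h0 - ω * h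
  exact ⟨F, inferInstance, inferInstance, F × F, inferInstance, inferInstance, inferInstance,
    Hm F, 5, isCoatom, by norm_num, star5 h0 hω2, not_star6 hω h3, not_compRed hω h3,
    not_uniserial h3⟩

end Pool.Agent.Results.MP_a1df92_al.Neither
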